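import Mathlib

set_option autoImplicit false
open Set Filter Topology Function MeasureTheory PiNat

namespace Pool.Agent.H.MP_b8145f

def B1 {Y : Type} [TopologicalSpace Y] (f : Y → ℝ) : Prop :=
  ∃ g : ℕ → Y → ℝ, (∀ n, Continuous (g n)) ∧ ∀ x, Tendsto (fun n => g n x) atTop (𝓝 (f x))

theorem B1.comp {Y W : Type} [TopologicalSpace Y] [TopologicalSpace W] {f : Y → ℝ} (h : B1 f)
    {p : W → Y} (hp : Continuous p) : B1 fun x => f (p x) :=
  h.elim fun g hg => ⟨fun n x => g n (p x), fun n => (hg.1 n).comp hp, fun x => hg.2 _⟩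

theorem B1.neg {Y : Type} [TopologicalSpace Y] {f : Y → ℝ} (h : B1 f) : B1 fun x => -f x :=
  h.elim fun g hg => ⟨fun n x => -g n x, fun n => (hg.1 n).neg, fun x => (hg.2 x).neg⟩

theorem B1.bp {Y : Type} [TopologicalSpace Y] [BaireSpace Y] [Nonempty Y] {f : Y → ℝ} (h : B1 f)
    {a b : ℝ} (hab : a < b) : ∃ V, IsOpen V ∧ V.Nonempty ∧
      ((∀ x ∈ V, f x ≤ b) ∨ ∀ x ∈ V, a ≤ f x) := by
  obtain ⟨g, g1, g2⟩ := h
  obtain ⟨j, hj⟩ := nonempty_interior_of_iUnion_of_closed (f := fun j : ℕ ⊕ ℕ => j.elim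
    (fun n => {x | ∀ k ≥ n, g k x ≤ b}) fun n => {x | ∀ k ≥ n, a ≤ g k x}) (by
      rintro (n | n) <;> simp only [Sum.elim_inl, Sum.elim_inr, ofPred_forall]
      exacts [isClosed_iInter fun k => isClosed_iInter fun _ => isClosed_le (g1 k) continuous_const,
        isClosed_iInter fun k => isClosed_iInter fun _ => isClosed_le continuous_const (g1 k)])
    (eq_univ_of_forall fun x => mem_iUnion.2 (by
      rcases lt_or_ge (f x) b with e | e
      · obtain ⟨n, hn⟩ := eventually_atTop.1 ((g2 x).eventually (ge_mem_nhds e))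
        exact ⟨.inl n, hn⟩
      · obtain ⟨n, hn⟩ := eventually_atTop.1 ((g2 x).eventually (le_mem_nhds (hab.trans_le e)))
        exact ⟨.inr n, hn⟩))
  refine ⟨_, isOpen_interior, hj, ?_⟩
  rcases j with n | n
  exacts [Or.inl fun x hx => le_of_tendsto (g2 x) (eventually_atTop.2 ⟨n, interior_subset hx⟩),
    Or.inr fun x hx => ge_of_tendsto (g2 x) (eventually_atTop.2 ⟨n, interior_subset hx⟩)]

theorem dc {S : Type} (I : ℕ → S → Prop) (R : ℕ → S → S → Prop) (h0 : ∃ s, I 0 s)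
    (h : ∀ n s, I n s → ∃ t, I (n + 1) t ∧ R n s t) :
    ∃ s : ℕ → S, ∀ n, I n (s n) ∧ R n (s n) (s (n + 1)) := by
  choose f f1 f2 using h
  let g : ∀ n, {s // I n s} := fun n => Nat.rec ⟨_, h0.choose_spec⟩ (fun n s => ⟨_, f1 n s.1 s.2⟩) n
  exact ⟨fun n => (g n).1, fun n => ⟨(g n).2, f2 n _ (g n).2⟩⟩

variable {X Ω : Type} [MetricSpace X]

theorem tree [CompleteSpace X] [TopologicalSpace Ω] [CompactSpace Ω] {e : Ω → X → ℝ}
    (h1 : ∀ y, Continuous fun w => e w y) (h2 : ∀ w, B1 (e w)) (D : ℕ → List Bool → Set X)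
    (d1 : ∀ n s σ, s.length = n → D (n + 1) (σ :: s) ⊆ D n s)
    (d2 : ∀ s, (D s.length s).Nonempty)
    (d3 : ∀ n, ∀ s, s.length = n + 1 → ∀ x ∈ D (n + 1) s, ∀ y ∈ D (n + 1) s, dist x y ≤ (1 / 2) ^ n)
    (w : ℕ → Ω) {a b : ℝ} (hab : a < b)
    (lo : ∀ u z, (∀ n, z ∈ closure (D n (res u n))) → (∀ᶠ n in atTop, u n = true) →
      ∀ᶠ n in atTop, e (w n) z ≤ a)
    (hi : ∀ u z, (∀ n, z ∈ closure (D n (res u n))) → (∀ᶠ n in atTop, u n = false) →
      ∀ᶠ n in atTop, b ≤ e (w n) z) : False := by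
  let A : List Bool → Set X := fun s => closure (D s.length s)
  have vd : CantorScheme.VanishingDiam A := fun u => by
    rw [← tendsto_add_atTop_iff_nat 1]
    have := ENNReal.tendsto_ofReal
      (tendsto_pow_atTop_nhds_zero_of_lt_one (one_half_pos (α := ℝ)).le one_half_lt_one)
    rw [ENNReal.ofReal_zero] at this
    refine tendsto_of_tendsto_of_tendsto_of_le_of_le tendsto_const_nhds this
      (fun _ => zero_le) fun n => ?_
    simp only [A, Metric.ediam_closure, res_length]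
    exact Metric.ediam_le_of_forall_dist_le (d3 n _ (res_length _ _))
  have e0 := (CantorScheme.Antitone.closureAntitone (A := A) (fun s σ => closure_mono
    (d1 _ s σ rfl)) fun _ => isClosed_closure).map_of_vanishingDiam vd fun s => (d2 s).closure
  obtain ⟨p, p1, p2⟩ : ∃ p : (ℕ → Bool) → X, Continuous p ∧ ∀ u n, p u ∈ closure (D n (res u n)) :=
    ⟨fun u => (CantorScheme.inducedMap A).2 ⟨u, e0 ▸ mem_univ u⟩,
      vd.map_continuous.comp (continuous_id.subtype_mk _), fun u n => by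
        simpa only [A, res_length] using CantorScheme.map_mem (A := A) ⟨u, e0 ▸ mem_univ u⟩ n⟩
  obtain ⟨v, -, hv⟩ := isCompact_univ.ultrafilter_le_nhds ((Ultrafilter.of atTop).map w) (by simp)
  have t := fun y => ((h1 y).tendsto v).comp hv
  obtain ⟨c, c1, c2⟩ := exists_between hab
  obtain ⟨d, c3, c4⟩ := exists_between c2
  obtain ⟨V, v1, ⟨u, hu⟩, v2⟩ := ((h2 v).comp p1).bp c3
  have dn : ∀ σ : Bool, ∃ u ∈ V, ∀ᶠ n in atTop, u n = σ := fun σ => by
    obtain ⟨n, hn⟩ := ((tendsto_pi_nhds.2 fun k => tendsto_const_nhds.congr' (by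
      filter_upwards [eventually_gt_atTop k] with n hn; rw [if_pos hn]) :
      Tendsto (fun n k => if k < n then u k else σ) atTop (𝓝 u)).eventually (v1.mem_nhds hu)).exists
    exact ⟨_, hn, (eventually_ge_atTop n).mono fun k hk => if_neg hk.not_gt⟩
  rcases v2 with v2 | v2
  · obtain ⟨u, u1, u2⟩ := dn false
    exact ((v2 u u1).trans_lt c4).not_ge (ge_of_tendsto (t _)
      ((hi u _ (p2 u) u2).filter_mono (Ultrafilter.of_le _)))
  · obtain ⟨u, u1, u2⟩ := dn true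
    exact (c1.trans_le (v2 u u1)).not_ge (le_of_tendsto (t _)
      ((lo u _ (p2 u) u2).filter_mono (Ultrafilter.of_le _)))

structure Id (I : Set X → Prop) : Prop where
  mono : ∀ A B, I B → A ⊆ B → I A
  un : ∀ {ι : Type} [Countable ι] (s : ι → Set X), (∀ i, I (s i)) → I (⋃ i, s i)

variable {I : Set X → Prop}

omit [MetricSpace X] in
theorem Id.ne (h : Id I) {B : Set X} (hB : ¬I B) : B.Nonempty :=
  nonempty_iff_ne_empty.2 fun e => hB (h.mono _ _ (h.un (ι := Empty) (fun _ => ∅) nofun) (by simp [e]))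

omit [MetricSpace X] in
theorem Id.sdiff (h : Id I) {A B : Set X} (hB : ¬I B) (hA : I A) : ¬I (B \ A) := fun e =>
  hB (h.mono _ _ (h.un (fun b : Bool => if b then A else B \ A) fun b => by cases b <;> simpa)
    fun x hx => mem_iUnion.2 (by
      by_cases k : x ∈ A
      exacts [⟨true, k⟩, ⟨false, hx, k⟩]))

variable [SecondCountableTopology X]

theorem Id.ker (h : Id I) {B : Set X} (hB : ¬I B) : ∃ P, IsClosed P ∧ P.Nonempty ∧
    ∀ V, IsOpen V → (V ∩ P).Nonempty → ¬I (B ∩ P ∩ V) := by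
  let P := {x | ∀ V, IsOpen V → x ∈ V → ¬I (B ∩ V)}
  have e : I (B \ P) := by
    have := (TopologicalSpace.countable_countableBasis X).to_subtype
    refine h.mono _ _ (h.un (ι := {V : TopologicalSpace.countableBasis X // I (B ∩ V)})
      (fun V => B ∩ V.1) fun V => V.2) fun x hx => ?_
    obtain ⟨V, v1, v2, v3⟩ : ∃ V, IsOpen V ∧ x ∈ V ∧ I (B ∩ V) := by simpa [P] using hx.2
    obtain ⟨W, w1, w2, w3⟩ := (TopologicalSpace.isBasis_countableBasis X).exists_subset_of_mem_open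
      v2 v1
    exact mem_iUnion.2 ⟨⟨⟨W, w1⟩, h.mono _ _ v3 (inter_subset_inter_right _ w3)⟩, hx.1, w2⟩
  refine ⟨P, isClosed_of_closure_subset fun x hx V v1 v2 => ?_,
    (h.ne (h.sdiff hB e)).mono fun x hx => by_contra fun k => hx.2 ⟨hx.1, k⟩,
    fun V v1 ⟨x, x1, x2⟩ k => h.sdiff (x2 V v1 x1) e (h.mono _ _ k fun y hy =>
      ⟨⟨hy.1.1, by_contra fun k => hy.2 ⟨hy.1.1, k⟩⟩, hy.1.2⟩)⟩
  obtain ⟨y, y1, y2⟩ := mem_closure_iff.1 hx V v1 v2
  exact y2 V v1 y1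

theorem Id.small (h : Id I) {B : Set X} (hB : ¬I B) {r : ℝ} (hr : 0 < r) :
    ∃ C ⊆ B, ¬I C ∧ ∀ x ∈ C, ∀ y ∈ C, dist x y ≤ r := by
  obtain ⟨P, -, ⟨z, hz⟩, p⟩ := h.ker hB
  exact ⟨_, fun x hx => hx.1.1, p _ (Metric.isOpen_ball (x := z) (ε := r / 2))
    ⟨z, Metric.mem_ball_self (half_pos hr), hz⟩, fun x hx y hy => by
      linarith [dist_triangle_right x y z, Metric.mem_ball.1 hx.2, Metric.mem_ball.1 hy.2]⟩

variable [MeasurableSpace Ω] {μ : Measure Ω}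

theorem Id.osc [CompleteSpace X] (h : Id I) {e : Ω → X → ℝ} (h2 : ∀ w, B1 (e w)) {B : Set X}
    (hB : ¬I B) {G : Set Ω} (hG : μ G ≠ 0) {a b : ℝ} (hab : a < b) : ∃ C ⊆ B, ¬I C ∧
      (μ (G ∩ {w | ∀ y ∈ closure C, e w y ≤ b}) ≠ 0 ∨
        μ (G ∩ {w | ∀ y ∈ closure C, a ≤ e w y}) ≠ 0) := by
  obtain ⟨P, p1, p2, p3⟩ := h.ker hB
  have := (TopologicalSpace.countable_countableBasis X).to_subtype
  have := p1.completeSpace_coe
  have := p2.to_subtype
  by_contra hc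
  push Not at hc
  refine hG (measure_mono_null (fun w hw => ?_) (measure_iUnion_null
    (ι := {V : TopologicalSpace.countableBasis X // (V.1 ∩ P).Nonempty}) fun V =>
    have k := hc (B ∩ P ∩ V.1) (fun x hx => hx.1.1)
      (p3 _ (TopologicalSpace.isOpen_of_mem_countableBasis V.1.2) V.2)
    measure_union_null k.1 k.2))
  obtain ⟨_, ⟨U, u1, rfl⟩, ⟨x, hx⟩, k⟩ := ((h2 w).comp (continuous_subtype_val (p := (· ∈ P)))).bp hab
  obtain ⟨V, v1, v2, v3⟩ := (TopologicalSpace.isBasis_countableBasis X).exists_closure_subset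
    (u1.mem_nhds hx)
  have q : ∀ y ∈ closure (B ∩ P ∩ V), y ∈ P ∧ y ∈ U := fun y hy =>
    ⟨closure_minimal (fun z hz => hz.1.2) p1 hy, v3 (closure_mono inter_subset_right hy)⟩
  exact mem_iUnion.2 ⟨⟨⟨V, v1⟩, x, v2, x.2⟩, k.imp
    (fun k => ⟨hw, fun y hy => k ⟨y, (q y hy).1⟩ (q y hy).2⟩)
    fun k => ⟨hw, fun y hy => k ⟨y, (q y hy).1⟩ (q y hy).2⟩⟩

theorem essU [IsFiniteMeasure μ] (S : Set (Set Ω)) (h : ∀ s ∈ S, MeasurableSet s) :
    ∃ c ⊆ S, c.Countable ∧ ∀ s ∈ S, μ (s \ ⋃₀ c) = 0 := by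
  obtain ⟨u, -, u1, u2⟩ := exists_seq_tendsto_sSup (S := {t | ∃ c ⊆ S, c.Countable ∧ μ (⋃₀ c) = t})
    ⟨_, ∅, empty_subset _, countable_empty, rfl⟩ (OrderTop.bddAbove _)
  choose c c1 c2 c3 using u2
  have k1 := iUnion_subset c1
  have k2 := countable_iUnion c2
  refine ⟨_, k1, k2, fun s hs => ?_⟩
  have m := MeasurableSet.sUnion k2 fun t ht => h t (k1 ht)
  have e1 : μ (⋃₀ insert s (⋃ n, c n)) ≤ μ (⋃₀ ⋃ n, c n) := (le_sSup
    (s := {t | ∃ c ⊆ S, c.Countable ∧ μ (⋃₀ c) = t}) ⟨_, insert_subset hs k1,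
    k2.insert _, rfl⟩).trans (le_of_tendsto' u1 fun n => (c3 n).ge.trans
      (measure_mono (sUnion_mono (subset_iUnion _ n))))
  rw [sUnion_insert, ← sdiff_union_self, measure_union disjoint_sdiff_left m] at e1
  exact nonpos_iff_eq_zero.1 ((ENNReal.add_le_add_iff_right (measure_ne_top _ _)).1
    (e1.trans_eq (zero_add _).symm))

theorem tau [TopologicalSpace Ω] [μ.InnerRegularCompactLTTop] [IsFiniteMeasure μ] {F : Set Ω}
    [OpensMeasurableSpace Ω] (hF : MeasurableSet F) {ι : Type} (O : ι → Set Ω)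
    (h1 : ∀ i, IsOpen (O i)) (h2 : ∀ i, μ (F ∩ O i) = 0) : μ (F ∩ ⋃ i, O i) = 0 := by
  rw [(hF.inter (isOpen_iUnion h1).measurableSet).measure_eq_iSup_isCompact_of_ne_top
    (measure_ne_top _ _)]
  simp only [ENNReal.iSup_eq_zero]
  intro K k1 k2
  obtain ⟨t, ht⟩ := k2.elim_finite_subcover O h1 fun x hx => (k1 hx).2
  refine measure_mono_null (fun x hx => ?_) ((measure_biUnion_null_iff t.countable_toSet).2
    fun i _ => h2 i)
  obtain ⟨i, i1, i2⟩ := mem_iUnion₂.1 (ht hx)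
  exact mem_iUnion₂.2 ⟨i, i1, (k1 hx).1, i2⟩

end Pool.Agent.H.MP_b8145f
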