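import Pool.Agent.H.MP_b8145f.A

set_option autoImplicit false
open Set Filter Topology Function MeasureTheory PiNat
open scoped ENNReal

namespace Pool.Agent.H.MP_b8145f

variable {X Ω : Type} [MetricSpace X] [SecondCountableTopology X] [TopologicalSpace Ω]
  [MeasurableSpace Ω] [OpensMeasurableSpace Ω] {μ : Measure Ω} [IsFiniteMeasure μ]
  [μ.InnerRegularCompactLTTop] {I : Set X → Prop} {e : Ω → X → ℝ}

def Th (μ : Measure Ω) (I : Set X → Prop) (O : X → Set Ω) (F : Set Ω) (D : Set X) : Prop :=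
  ∃ B ⊆ D, ¬I B ∧ ∃ θ : ℝ≥0∞, 0 < θ ∧ ∀ C ⊆ B, ¬I C → θ ≤ μ (F ∩ ⋃ y ∈ C, O y)

def An (μ : Measure Ω) (I : Set X → Prop) (O : X → Set Ω) (F : Set Ω) (y : X) (D : Set X) : Prop :=
  ∀ W, IsOpen W → y ∈ W → ∀ G ⊆ F, MeasurableSet G → μ G ≠ 0 → Th μ I O G (W ∩ D)

theorem anchor (h : Id I) {O : X → Set Ω} (hO : ∀ y, IsOpen (O y)) {F : Set Ω}
    (mF : MeasurableSet F) {B : Set X} (hB : ¬I B) {θ : ℝ≥0∞} (h0 : 0 < θ)
    (H : ∀ C ⊆ B, ¬I C → θ ≤ μ (F ∩ ⋃ y ∈ C, O y)) :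
    ∃ y ∈ B, ∃ G ⊆ F ∩ O y, MeasurableSet G ∧ μ G ≠ 0 ∧ An μ I O G y B := by
  have := (TopologicalSpace.countable_countableBasis X).to_subtype
  choose c c1 c2 c3 using fun W : TopologicalSpace.countableBasis X => essU (μ := μ)
    {N | MeasurableSet N ∧ ¬Th μ I O N (W ∩ B)} fun _ h => h.1
  have := fun W => (c2 W).to_subtype
  by_contra hc
  push Not at hc
  have k1 : ∀ y ∈ B, μ ((F ∩ O y) \ ⋃ W : {W : TopologicalSpace.countableBasis X // y ∈ W.1},
      ⋃₀ c W) = 0 := fun y hy => by_contra fun k => hc y hy _ sdiff_subset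
    ((mF.inter (hO y).measurableSet).diff (.iUnion fun W => .sUnion (c2 _) fun t ht =>
      (c1 _ ht).1)) k fun W w1 w2 G g1 g2 g3 => by
      obtain ⟨V, v1, v2, v3⟩ := (TopologicalSpace.isBasis_countableBasis X).exists_subset_of_mem_open
        w2 w1
      by_contra k
      refine g3 (measure_mono_null (fun w hw => And.intro hw fun e => (g1 hw).2 (mem_iUnion.2
        ⟨⟨⟨V, v1⟩, v2⟩, e⟩)) (c3 ⟨V, v1⟩ G ⟨g2, fun ⟨C, k1, k2⟩ =>
          k ⟨C, k1.trans (inter_subset_inter_left _ v3), k2⟩⟩))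
  let Y : (Σ W, c W) × ℕ → Set X := fun j =>
    {y ∈ j.1.1.1 ∩ B | (j.2 : ℝ≥0∞)⁻¹ ≤ μ (j.1.2.1 ∩ O y)}
  have k2 : I (⋃ j, Y j) := h.un _ fun j => by_contra fun k => (c1 _ j.1.2.2).2
    ⟨Y j, fun _ h => h.1, k, _, ENNReal.inv_pos.2 (ENNReal.natCast_ne_top _), fun C k1 k2 => by
      obtain ⟨y, hy⟩ := h.ne k2
      exact (k1 hy).2.trans (measure_mono (inter_subset_inter_right _
        (subset_biUnion_of_mem (u := O) hy)))⟩
  refine ((H _ sdiff_subset (h.sdiff hB k2)).trans_eq ?_).not_gt h0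
  rw [biUnion_eq_iUnion]
  refine tau mF _ (fun y => hO _) fun ⟨y, y1, y2⟩ => measure_mono_null (fun w hw => ?_)
    (measure_union_null (k1 y y1) (measure_iUnion_null
      (ι := {j : Σ W, c W // y ∈ j.1.1}) (s := fun j => j.1.2.1 ∩ O y) fun j => ?_))
  · refine or_iff_not_imp_left.2 fun k => ?_
    obtain ⟨W, N, n1, n2⟩ := mem_iUnion.1 (by_contra fun k' => k ⟨hw, k'⟩)
    exact mem_iUnion.2 ⟨⟨⟨W.1, N, n1⟩, W.2⟩, n2, hw.2⟩
  · by_contra k
    obtain ⟨n, hn⟩ := ENNReal.exists_inv_nat_lt k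
    exact y2 (mem_iUnion.2 ⟨(j.1, n), ⟨j.2, y1⟩, hn.le⟩)

theorem lemB [CompleteSpace X] [CompactSpace Ω] (h : Id I) (h1 : ∀ y, Continuous fun w => e w y)
    (h2 : ∀ w, B1 (e w)) {B : Set X} (hB : ¬I B) {Z : Set Ω} (mZ : MeasurableSet Z) {c b : ℝ}
    (hcb : c < b) (hZ : ∀ C ⊆ B, ¬I C → μ (Z ∩ {w | ∀ y ∈ closure C, c ≤ e w y}) = 0) {θ : ℝ≥0∞}
    (h0 : 0 < θ) : ∃ C ⊆ B, ¬I C ∧ μ (Z ∩ ⋃ y ∈ C, {w | b < e w y}) < θ := by
  by_contra hc
  push Not at hc
  obtain ⟨a, a1, a2⟩ := exists_between hcb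
  obtain ⟨O, hO⟩ : ∃ O : X → Set Ω, ∀ y, O y = {w | b < e w y} := ⟨_, fun _ => rfl⟩
  simp only [← hO] at hc
  have o : ∀ y, IsOpen (O y) := fun y => hO y ▸ isOpen_lt continuous_const (h1 y)
  have step : ∀ (T : Finset (List Bool)) (r : ℝ), 0 < r → ∀ (F : Set Ω) (y : List Bool → X)
      (D : List Bool → Set X), MeasurableSet F → μ F ≠ 0 → F ⊆ Z →
      (∀ s ∈ T, D s ⊆ B ∧ An μ I O F (y s) (D s)) → ∃ F' ⊆ F, ∃ G ⊆ F, ∃ (y' : List Bool → X)
        (D' : List Bool → Set X), MeasurableSet F' ∧ μ F' ≠ 0 ∧ μ G ≠ 0 ∧ ∀ s ∈ T, y' s ∈ D' s ∧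
        D' s ⊆ Metric.ball (y s) r ∩ D s ∧ An μ I O F' (y' s) (D' s) ∧ F' ⊆ O (y' s) ∧
        ∀ w ∈ G, ∀ z ∈ closure (D' s), e w z ≤ a := by
    intro T r r0 F y D f1 f2 f3
    induction T using Finset.induction_on with
    | empty => exact fun _ => ⟨F, le_rfl, F, le_rfl, y, D, f1, f2, f2, by simp⟩
    | insert s T hs ih =>
      intro H
      obtain ⟨F', p1, G, p2, y', D', p3, p4, p5, p6⟩ := ih fun t ht => H t (Finset.mem_insert_of_mem ht)
      obtain ⟨q1, q2⟩ := H s (Finset.mem_insert_self _ _)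
      obtain ⟨C, k1, k2, θ', k3, k4⟩ := q2 _ Metric.isOpen_ball (Metric.mem_ball_self r0) F' p1 p3 p4
      obtain ⟨C', k5, k6, k7⟩ := h.osc (μ := μ) h2 k2 p5 a1
      have k8 := k7.resolve_right fun k => k (measure_mono_null (inter_subset_inter_left _
        (p2.trans f3)) (hZ C' (fun x hx => q1 (k1 (k5 hx)).2) k6))
      obtain ⟨y1, l1, F1, l2, l3, l4, l5⟩ := anchor h o p3 k6 k3 fun C hC => k4 C (hC.trans k5)
      have l6 := l2.trans inter_subset_left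
      refine ⟨F1, l6.trans p1, _, inter_subset_left.trans p2, update y' s y1, update D' s C', l3, l4,
        k8, fun t ht => ?_⟩
      rcases Finset.mem_insert.1 ht with rfl | ht
      · rw [update_self, update_self]
        exact ⟨l1, k5.trans k1, l5, l2.trans inter_subset_right, fun w hw => hw.2⟩
      · rw [update_of_ne (ne_of_mem_of_not_mem ht hs), update_of_ne (ne_of_mem_of_not_mem ht hs)]
        obtain ⟨m1, m2, m3, m4, m5⟩ := p6 t ht
        exact ⟨m1, m2, fun W w1 w2 G g => m3 W w1 w2 G (g.trans l6), l6.trans m4,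
          fun w hw => m5 w hw.1⟩
  obtain ⟨S, hS⟩ := dc (S := Set Ω × (List Bool → X) × (List Bool → Set X))
    (fun n S => MeasurableSet S.1 ∧ μ S.1 ≠ 0 ∧ S.1 ⊆ Z ∧ ∀ s, s.length = n → S.2.1 s ∈ S.2.2 s ∧
      S.2.2 s ⊆ B ∧ An μ I O S.1 (S.2.1 s) (S.2.2 s) ∧ S.1 ⊆ O (S.2.1 s))
    (fun n S S' => (∀ s σ, s.length = n →
      S'.2.2 (σ :: s) ⊆ Metric.ball (S.2.1 s) ((1 / 2) ^ (n + 1)) ∩ S.2.2 s) ∧
      (∀ s, S'.2.1 (false :: s) = S.2.1 s) ∧ ∃ w ∈ S.1, ∀ s, s.length = n →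
        ∀ z ∈ closure (S'.2.2 (true :: s)), e w z ≤ a) (by
      obtain ⟨y, y1, F, f1, f2, f3, f4⟩ := anchor h o mZ hB h0 hc
      exact ⟨(F, fun _ => y, fun _ => B), f2, f3, f1.trans inter_subset_left, fun _ _ =>
        ⟨y1, le_rfl, f4, f1.trans inter_subset_right⟩⟩) (by
      rintro n ⟨F, y, D⟩ ⟨f1, f2, f3, f4⟩
      have r0 : (0 : ℝ) < (1 / 2) ^ (n + 1) := by positivity
      obtain ⟨F', p1, G, p2, y', D', p3, p4, p5, p6⟩ := step (List.finite_length_eq Bool n).toFinset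
        _ r0 F y D f1 f2 f3 fun s hs =>
          have k := f4 s (by simpa using hs); ⟨k.2.1, k.2.2.1⟩
      have p7 := fun s (hs : s.length = n) => p6 s (by simpa using hs)
      obtain ⟨w, hw⟩ := nonempty_of_measure_ne_zero p5
      refine ⟨(F', fun t => if t.headI then y' t.tail else y t.tail, fun t => if t.headI then
        D' t.tail else Metric.ball (y t.tail) ((1 / 2) ^ (n + 1)) ∩ D t.tail),
        ⟨p3, p4, p1.trans f3, ?_⟩, ?_, fun s => rfl, w, p2 hw, fun s hs => (p7 s hs).2.2.2.2 w hw⟩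
      · rintro (_ | ⟨_ | _, s⟩) hs
        · simp at hs
        · obtain ⟨m1, m2, m3, m4⟩ := f4 s (by simpa using hs)
          exact ⟨⟨Metric.mem_ball_self r0, m1⟩, inter_subset_right.trans m2, fun W w1 w2 G g g1 g2 =>
            inter_assoc W _ _ ▸ m3 _ (w1.inter Metric.isOpen_ball) ⟨w2, Metric.mem_ball_self r0⟩ G
              (g.trans p1) g1 g2, p1.trans m4⟩
        · obtain ⟨m1, m2, m3, m4, -⟩ := p7 s (by simpa using hs)
          exact ⟨m1, (m2.trans inter_subset_right).trans (f4 s (by simpa using hs)).2.1, m3, m4⟩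
      · rintro s (_ | _) hs
        exacts [le_rfl, (p7 s hs).2.1])
  choose w w1 w2 using fun n => (hS n).2.2.2
  refine tree h1 h2 (fun n => (S n).2.2) (fun n s σ hs => ((hS n).2.1 s σ hs).trans
    inter_subset_right) (fun s => ⟨_, ((hS _).1.2.2.2 s rfl).1⟩) ?_ w a2
    (fun u z hz hu => hu.mono fun n hn => w2 n _ (res_length _ _) z (by
      have := hz (n + 1); rwa [res_succ, hn] at this))
    fun u z hz hu => ?_
  · rintro n (_ | ⟨σ, s⟩) hs x hx y hy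
    · simp at hs
    have k := (hS n).2.1 s σ (by simpa using hs)
    have := dist_triangle_right x y ((S n).2.1 s)
    have k1 := Metric.mem_ball.1 (k hx).1
    have k2 := Metric.mem_ball.1 (k hy).1
    rw [pow_succ] at k1 k2
    linarith
  · obtain ⟨N, hN⟩ := eventually_atTop.1 hu
    have k : ∀ n ≥ N, (S n).2.1 (res u n) = (S N).2.1 (res u N) := fun n hn => by
      induction hn with
      | refl => rfl
      | step hn ih => rw [res_succ, hN _ hn, (hS _).2.2.1, ih]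
    obtain rfl : z = (S N).2.1 (res u N) := dist_le_zero.1 (ge_of_tendsto
      ((tendsto_add_atTop_iff_nat 1).2 (tendsto_pow_atTop_nhds_zero_of_lt_one
        (one_half_pos (α := ℝ)).le one_half_lt_one)) (eventually_atTop.2 ⟨N, fun n hn =>
        k n hn ▸ closure_minimal (fun x hx => Metric.ball_subset_closedBall
          ((hS n).2.1 _ _ (res_length u n) hx).1) Metric.isClosed_closedBall (hz (n + 1))⟩))
    refine eventually_atTop.2 ⟨N, fun n hn => ?_⟩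
    have := ((hS n).1.2.2.2 _ (res_length u n)).2.2.2 (w1 n)
    rw [k n hn, hO] at this
    exact le_of_lt this

end Pool.Agent.H.MP_b8145f
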