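import Pool.Agent.H.MP_b8145f.B

set_option autoImplicit false
open Set Filter Topology Function MeasureTheory PiNat
open scoped ENNReal

namespace Pool.Agent.H.MP_b8145f

variable {X Ω : Type} [MetricSpace X] [SecondCountableTopology X] [TopologicalSpace Ω]
  [MeasurableSpace Ω] [OpensMeasurableSpace Ω] {μ : Measure Ω} [IsFiniteMeasure μ]
  {I : Set X → Prop} {e : Ω → X → ℝ}

theorem lemA [CompleteSpace X] [CompactSpace Ω] (h : Id I) (h1 : ∀ y, Continuous fun w => e w y)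
    (h2 : ∀ w, B1 (e w)) {B0 : Set X} (hB : ¬I B0) {a b : ℝ} (hab : a < b) {ρ : ℝ} (ρ0 : 0 < ρ) :
    ∃ B ⊆ B0, ¬I B ∧ ∃ H : Bool → Set Ω, (∀ σ, MeasurableSet (H σ)) ∧
      μ.real (H true ∩ H false) < ρ ∧ ∀ C ⊆ B, ¬I C →
        μ ((H true)ᶜ ∩ {w | ∀ y ∈ closure C, e w y ≤ a}) = 0 ∧
        μ ((H false)ᶜ ∩ {w | ∀ y ∈ closure C, b ≤ e w y}) = 0 := by
  obtain ⟨L, l1, l2⟩ : ∃ L : Bool → Set X → Set Ω,
      (∀ C, L true C = {w | ∀ y ∈ closure C, e w y ≤ a}) ∧
      ∀ C, L false C = {w | ∀ y ∈ closure C, b ≤ e w y} :=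
    ⟨fun σ C => if σ then {w | ∀ y ∈ closure C, e w y ≤ a} else {w | ∀ y ∈ closure C, b ≤ e w y},
      fun _ => rfl, fun _ => rfl⟩
  have l3 : ∀ σ C, MeasurableSet (L σ C) := by
    rintro (_ | _) C <;> simp only [l1, l2, ofPred_forall]
    exacts [(isClosed_iInter fun y => isClosed_iInter fun _ =>
      isClosed_le continuous_const (h1 y)).measurableSet, (isClosed_iInter fun y =>
        isClosed_iInter fun _ => isClosed_le (h1 y) continuous_const).measurableSet]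
  have l4 : ∀ σ C C', C' ⊆ C → L σ C ⊆ L σ C' := by
    rintro (_ | _) C C' k <;> simp only [l1, l2] <;> exact fun w hw y hy => hw y (closure_mono k hy)
  choose c c1 c2 c3 using fun σ B => essU (μ := μ) {N | ∃ C ⊆ B, ¬I C ∧ L σ C = N}
    fun _ ⟨C, _, _, k⟩ => k ▸ l3 σ C
  obtain ⟨H, hH⟩ : ∃ H : Bool → Set X → Set Ω, ∀ σ B, H σ B = ⋃₀ c σ B := ⟨_, fun _ _ => rfl⟩
  have p1 : ∀ σ B, MeasurableSet (H σ B) := fun σ B => hH σ B ▸ .sUnion (c2 σ B) fun t ht =>
    have ⟨C, _, _, k⟩ := c1 σ B ht; k ▸ l3 σ C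
  have p2 : ∀ σ B, ∀ C ⊆ B, ¬I C → μ ((H σ B)ᶜ ∩ L σ C) = 0 := fun σ B C k1 k2 => by
    rw [hH, inter_comm]; exact c3 σ B _ ⟨C, k1, k2, rfl⟩
  have p3 : ∀ σ B F, μ (F ∩ H σ B) ≠ 0 → ∃ C ⊆ B, ¬I C ∧ μ (F ∩ L σ C) ≠ 0 := fun σ B F k => by
    by_contra hc
    push Not at hc
    rw [hH, sUnion_eq_biUnion, inter_iUnion₂] at k
    exact k ((measure_biUnion_null_iff (c2 σ B)).2 fun t ht =>
      have ⟨C, k1, k2, k3⟩ := c1 σ B ht; k3 ▸ hc C k1 k2)
  have p4 : ∀ σ B, ∀ C ⊆ B, ∀ᵐ w ∂μ, w ∈ H σ C → w ∈ H σ B := fun σ B C k => by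
    have : μ ((H σ B)ᶜ ∩ H σ C) = 0 := by_contra fun k1 =>
      have ⟨C', k2, k3, k4⟩ := p3 σ C _ k1; k4 (p2 σ B C' (k2.trans k) k3)
    exact measure_mono_null (fun w hw => by
      simp only [mem_compl_iff, mem_ofPred_eq, Classical.not_imp] at hw
      exact ⟨hw.2, hw.1⟩) this
  by_contra hc
  obtain ⟨P, hP⟩ : ∃ P : ℕ → (List Bool → Set X) → Set Ω, ∀ n D, P n D =
      {w | ∀ σ s, s.length = n → w ∈ H σ (D s)} := ⟨_, fun _ _ => rfl⟩
  let Ref : ℕ → (List Bool → Set X) → (List Bool → Set X) → Prop := fun n D D' =>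
    ∀ s, s.length = n → D' s ⊆ D s ∧ ¬I (D' s)
  have q1 : ∀ n D, MeasurableSet (P n D) := fun n D => by
    simp only [hP, ofPred_forall]
    exact .iInter fun σ => .iInter fun s => .iInter fun _ => p1 σ _
  have q2 : ∀ n D D', Ref n D D' → ∀ᵐ w ∂μ, w ∈ P n D' → w ∈ P n D := fun n D D' k => by
    have : ∀ᵐ w ∂μ, ∀ σ s, s.length = n → w ∈ H σ (D' s) → w ∈ H σ (D s) :=
      ae_all_iff.2 fun σ => ae_all_iff.2 fun s => ae_all_iff.2 fun hs => p4 σ _ _ (k s hs).1
    filter_upwards [this] with w hw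
    simp only [hP]
    exact fun k σ s hs => hw σ s hs (k σ s hs)
  obtain ⟨D, hD⟩ := dc (S := List Bool → Set X)
    (fun n D => Ref n D D ∧ ∃ κ > 0, ∀ D', Ref n D D' → κ ≤ μ.real (P n D'))
    (fun n D D' => ∃ w, ∀ s σ, s.length = n → D' (σ :: s) ⊆ D s ∧ w ∈ L σ (D' (σ :: s)) ∧
      ∀ x ∈ D' (σ :: s), ∀ y ∈ D' (σ :: s), dist x y ≤ (1 / 2) ^ n)
    ⟨fun _ => B0, fun _ _ => ⟨le_rfl, hB⟩, ρ, ρ0, fun D' k => not_lt.1 fun k1 => hc
      ⟨D' [], (k [] rfl).1, (k [] rfl).2, fun σ => H σ (D' []), fun σ => p1 σ _,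
        (measureReal_mono (fun w hw => by
          rw [hP]
          rintro (_ | _) s hs <;> rw [List.length_eq_zero_iff.1 hs]
          exacts [hw.2, hw.1])).trans_lt k1, fun C k1 k2 =>
        ⟨l1 C ▸ p2 true _ C k1 k2, l2 C ▸ p2 false _ C k1 k2⟩⟩⟩ (by
      rintro n D ⟨d1, κ, κ0, d2⟩
      have ne : {t | ∃ D', Ref n D D' ∧ μ.real (P n D') = t}.Nonempty := ⟨_, D, d1, rfl⟩
      have lb : κ ∈ lowerBounds {t | ∃ D', Ref n D D' ∧ μ.real (P n D') = t} :=
        fun _ ⟨D', k1, k2⟩ => k2 ▸ d2 D' k1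
      have m1 := le_csInf ne lb
      have m2 := fun D' (k : Ref n D D') => csInf_le ⟨_, lb⟩ ⟨D', k, rfl⟩
      obtain ⟨_, ⟨D1, k1, rfl⟩, k2⟩ := exists_lt_of_csInf_lt ne
        (show _ < 3 / 2 * sInf {t | ∃ D', Ref n D D' ∧ μ.real (P n D') = t} by linarith)
      generalize sInf {t | ∃ D', Ref n D D' ∧ μ.real (P n D') = t} = m at m1 m2 k2
      have st : ∀ T : Finset (List Bool), (∀ t ∈ T, t.tail.length = n) → ∃ G ⊆ P n D1, μ G ≠ 0 ∧
          ∃ C : List Bool → Set X, ∀ t ∈ T, C t ⊆ D1 t.tail ∧ ¬I (C t) ∧ G ⊆ L t.headI (C t) ∧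
            ∀ x ∈ C t, ∀ y ∈ C t, dist x y ≤ (1 / 2) ^ n := fun T => by
        induction T using Finset.induction_on with
        | empty => exact fun _ => ⟨_, le_rfl, fun k => (κ0.trans_le (d2 D1 k1)).ne' (by
            rw [measureReal_def, k]; rfl), D1, by simp⟩
        | insert s T hs ih =>
          intro k
          obtain ⟨G, g1, g2, C, g3⟩ := ih fun t ht => k t (Finset.mem_insert_of_mem ht)
          obtain ⟨C1, r1, r2, r3⟩ := p3 s.headI (D1 s.tail) G (by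
            rwa [inter_eq_left.2 fun w hw => (hP n D1 ▸ g1 hw :) _ _
              (k s (Finset.mem_insert_self _ _))])
          obtain ⟨C2, r4, r5, r6⟩ := h.small r2 (show (0 : ℝ) < (1 / 2) ^ n by positivity)
          refine ⟨_, inter_subset_left.trans g1, r3, update C s C2, fun t ht => ?_⟩
          rcases Finset.mem_insert.1 ht with rfl | ht
          · rw [update_self]
            exact ⟨r4.trans r1, r5, inter_subset_right.trans (l4 _ _ _ r4), r6⟩
          · rw [update_of_ne (ne_of_mem_of_not_mem ht hs)]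
            obtain ⟨s1, s2, s3, s4⟩ := g3 t ht
            exact ⟨s1, s2, inter_subset_left.trans s3, s4⟩
      obtain ⟨G, -, g2, C, g3⟩ := st (List.finite_length_eq Bool (n + 1)).toFinset fun t ht => by
        have : t.length = n + 1 := by simpa using ht
        simp [this]
      have g4 := fun t (ht : t.length = n + 1) => g3 t (by simpa using ht)
      obtain ⟨w, hw⟩ := nonempty_of_measure_ne_zero g2
      refine ⟨C, ⟨fun t ht => ⟨le_rfl, (g4 t ht).2.1⟩, m / 2, by linarith, fun D' k => ?_⟩, w,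
        fun s σ hs => ?_⟩
      · have r1 : ∀ σ, Ref n D1 fun s => D' (σ :: s) := fun σ s hs =>
          have k := k (σ :: s) (by simp [hs])
          ⟨k.1.trans (g4 (σ :: s) (by simp [hs])).1, k.2⟩
        have r2 := fun σ => m2 _ fun s hs => ⟨(r1 σ s hs).1.trans (k1 s hs).1, (r1 σ s hs).2⟩
        have r3 := measureReal_union_add_inter (μ := μ) (s := P n fun s => D' (true :: s))
          (q1 n fun s => D' (false :: s))
        have r4 : μ.real ((P n fun s => D' (true :: s)) ∪ P n fun s => D' (false :: s)) ≤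
            μ.real (P n D1) := ENNReal.toReal_mono (measure_ne_top _ _) (measure_mono_ae (by
          filter_upwards [q2 _ _ _ (r1 true), q2 _ _ _ (r1 false)] with w w1 w2 w3
          exact w3.elim w1 w2))
        have r5 : μ.real ((P n fun s => D' (true :: s)) ∩ P n fun s => D' (false :: s)) ≤
            μ.real (P (n + 1) D') := measureReal_mono fun w hw => by
          simp only [hP] at hw ⊢
          rintro σ (_ | ⟨_ | _, s⟩) hs
          exacts [by simp at hs, hw.2 σ s (by simpa using hs), hw.1 σ s (by simpa using hs)]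
        linarith [r2 true, r2 false]
      · obtain ⟨s1, -, s3, s4⟩ := g4 (σ :: s) (by simp [hs])
        exact ⟨s1.trans (k1 s hs).1, s3 hw, s4⟩)
  choose w hw using fun n => (hD n).2
  refine tree h1 h2 D (fun n s σ hs => (hw n s σ hs).1) (fun s => h.ne ((hD _).1.1 s rfl).2) ?_ w hab
    (fun u z hz hu => hu.mono fun n hn => ?_) fun u z hz hu => hu.mono fun n hn => ?_
  · rintro n (_ | ⟨σ, s⟩) hs
    exacts [by simp at hs, (hw n s σ (by simpa using hs)).2.2]
  all_goals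
    have k1 := hz (n + 1)
    have k2 := (hw n _ (u n) (res_length u n)).2.1
    rw [res_succ] at k1
    rw [hn] at k1 k2
  exacts [(l1 _ ▸ k2 :) z k1, (l2 _ ▸ k2 :) z k1]

end Pool.Agent.H.MP_b8145f
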