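import Pool.Agent.H.MP_b8145f.C

set_option autoImplicit false
open Set Filter Topology Function MeasureTheory PiNat
open scoped ENNReal

namespace Pool.Agent.H.MP_b8145f

variable {X Ω : Type} [MetricSpace X] [SecondCountableTopology X] [TopologicalSpace Ω]
  [MeasurableSpace Ω] [BorelSpace Ω] {μ : Measure Ω} [IsFiniteMeasure μ]
  [μ.InnerRegularCompactLTTop] {e : Ω → X → ℝ} [CompleteSpace X] [CompactSpace Ω]

theorem cover (h1 : ∀ y, Continuous fun w => e w y) (h2 : ∀ w, B1 (e w)) {a b : ℝ} (hab : a < b)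
    {ε : ℝ≥0∞} (ε0 : 0 < ε) : ∃ c : Set (Set X), c.Countable ∧ (∀ A ∈ c,
      μ ((⋃ y ∈ A, {w | b < e w y}) ∩ ⋃ y ∈ A, {w | e w y < a}) < ε) ∧ univ ⊆ ⋃₀ c := by
  let I : Set X → Prop := fun B => ∃ c : Set (Set X), c.Countable ∧ (∀ A ∈ c,
      μ ((⋃ y ∈ A, {w | b < e w y}) ∩ ⋃ y ∈ A, {w | e w y < a}) < ε) ∧ B ⊆ ⋃₀ c
  have h : Id I := ⟨fun A B ⟨c, c1, c2, c3⟩ k => ⟨c, c1, c2, k.trans c3⟩, fun s hs => by
    choose c c1 c2 c3 using hs
    exact ⟨⋃ i, c i, countable_iUnion c1, fun A hA => have ⟨i, hi⟩ := mem_iUnion.1 hA; c2 i A hi,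
      iUnion_subset fun i => (c3 i).trans (sUnion_mono (subset_iUnion _ i))⟩⟩
  by_contra hc
  obtain ⟨a1, i1, i2⟩ := exists_between hab
  obtain ⟨b1, i3, i4⟩ := exists_between i2
  obtain ⟨ρ, -, ρ0, ρ1⟩ := ENNReal.lt_iff_exists_real_btwn.1 ε0
  rw [ENNReal.ofReal_pos] at ρ0
  have θ0 := ENNReal.ofReal_pos.2 (show 0 < ρ / 3 by linarith)
  obtain ⟨B, -, k1, H, k2, k3, k4⟩ := lemA (μ := μ) h h1 h2 hc i3 (show 0 < ρ / 3 by linarith)
  obtain ⟨C, k5, k6, k7⟩ := lemB (μ := μ) h h1 h2 k1 (k2 false).compl i4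
    (fun C c1 c2 => (k4 C c1 c2).2) θ0
  obtain ⟨C', k8, k9, k10⟩ := lemB (μ := μ) (e := fun w y => -e w y) h (fun y => (h1 y).neg)
    (fun w => (h2 w).neg) k6 (k2 true).compl (neg_lt_neg i1)
    (fun C c1 c2 => by simpa only [neg_le_neg_iff] using (k4 C (c1.trans k5) c2).1) θ0
  simp only [neg_lt_neg_iff] at k10
  refine k9 ⟨{C'}, countable_singleton _, fun A hA => ?_, by simp⟩
  rw [mem_singleton_iff.1 hA]
  have k11 : μ (H true ∩ H false) ≤ ENNReal.ofReal (ρ / 3) := by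
    rw [← ofReal_measureReal (measure_ne_top _ _)]
    exact ENNReal.ofReal_le_ofReal k3.le
  refine lt_of_le_of_lt ?_ ρ1
  rw [show ρ = ρ / 3 + ρ / 3 + ρ / 3 by ring, ENNReal.ofReal_add (by linarith) (by linarith),
    ENNReal.ofReal_add (by linarith) (by linarith)]
  refine le_trans (measure_mono fun w hw => ?_) ((measure_union_le _ _).trans (add_le_add
    ((measure_union_le _ _).trans (add_le_add k11 k7.le)) k10.le))
  by_cases w1 : w ∈ H true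
  · by_cases w2 : w ∈ H false
    exacts [.inl (.inl ⟨w1, w2⟩), .inl (.inr ⟨w2, biUnion_subset_biUnion_left k8 hw.1⟩)]
  · exact .inr ⟨w1, hw.2⟩

theorem alg (h1 : IsInducing e) (h2 : ∀ w, B1 (e w)) : ∃ Z : Set (Set Ω), Z.Countable ∧
    IsSetAlgebra Z ∧ (∀ s ∈ Z, MeasurableSet s) ∧ ∀ x, ∀ U ∈ 𝓝 x, ∃ V ∈ 𝓝 x, ∀ ε > 0,
      ∃ s ∈ Z, s ⊆ U ∧ μ (V \ s) < ε := by
  have h3 : ∀ y, Continuous fun w => e w y := fun y => (continuous_apply y).comp h1.continuous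
  have : ∀ j : {j : ℚ × ℚ // j.1 < j.2} × ℕ, _ := fun j => cover (μ := μ) h3 h2
    (Rat.cast_lt.2 j.1.2) (ENNReal.inv_pos.2 (ENNReal.natCast_ne_top j.2))
  choose c c1 c2 c3 using this
  let Z0 : Set (Set Ω) := ⋃ j, ((fun A => ⋃ y ∈ A, {w | (j.1.1.2 : ℝ) < e w y}) '' c j ∪
    (fun A => ⋃ y ∈ A, {w | e w y < (j.1.1.1 : ℝ)}) '' c j)
  have z := isSetAlgebra_generateSetAlgebra (𝒜 := Z0)
  refine ⟨_, countable_generateSetAlgebra (countable_iUnion fun j =>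
    ((c1 j).image _).union ((c1 j).image _)), z, IsSetAlgebra.generateSetAlgebra_subset
    (ℬ := {s | MeasurableSet s}) (iUnion_subset fun j => union_subset ?_ ?_)
    ⟨.empty, fun _ h => h.compl, fun _ _ h k => h.union k⟩, fun x => ?_⟩
  · rintro _ ⟨A, -, rfl⟩
    exact (isOpen_biUnion fun y _ => isOpen_lt continuous_const (h3 y)).measurableSet
  · rintro _ ⟨A, -, rfl⟩
    exact (isOpen_biUnion fun y _ => isOpen_lt (h3 y) continuous_const).measurableSet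
  let F : Filter Ω :=
    { sets := {U | ∃ V ∈ 𝓝 x, ∀ ε > 0, ∃ s ∈ generateSetAlgebra Z0, s ⊆ U ∧ μ (V \ s) < ε}
      univ_sets := ⟨univ, univ_mem, fun ε h => ⟨univ, z.univ_mem, le_rfl, by simpa using h⟩⟩
      sets_of_superset := fun ⟨V, v1, v2⟩ k => ⟨V, v1, fun ε h =>
        have ⟨s, s1, s2, s3⟩ := v2 ε h; ⟨s, s1, s2.trans k, s3⟩⟩
      inter_sets := fun ⟨V, v1, v2⟩ ⟨W, w1, w2⟩ => ⟨_, inter_mem v1 w1, fun ε h => by
        obtain ⟨s, s1, s2, s3⟩ := v2 _ (ENNReal.half_pos h.ne')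
        obtain ⟨t, t1, t2, t3⟩ := w2 _ (ENNReal.half_pos h.ne')
        refine ⟨_, z.inter_mem s1 t1, inter_subset_inter s2 t2, lt_of_le_of_lt ?_
          ((ENNReal.add_lt_add s3 t3).trans_eq (ENNReal.add_halves _))⟩
        exact (measure_mono fun w hw => (not_and_or.1 hw.2).imp (And.intro hw.1.1)
          (And.intro hw.1.2)).trans (measure_union_le _ _)⟩ }
  refine (h1.tendsto_nhds_iff (f := id) (l := F)).2 (tendsto_pi_nhds.2 fun y =>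
    tendsto_order.2 ⟨fun r hr => ?_, fun r hr => ?_⟩)
  all_goals
    obtain ⟨a, i1, i2⟩ := exists_rat_btwn hr
  · obtain ⟨b, i3, i4⟩ := exists_rat_btwn i2
    refine ⟨_, (isOpen_lt continuous_const (h3 y)).mem_nhds i4, fun ε h => ?_⟩
    obtain ⟨n, hn⟩ := ENNReal.exists_inv_nat_lt h.ne'
    obtain ⟨A, a1, a2⟩ := c3 (⟨(a, b), Rat.cast_lt.1 i3⟩, n) (mem_univ y)
    refine ⟨_, z.compl_mem (self_subset_generateSetAlgebra (mem_iUnion.2 ⟨_, .inr ⟨A, a1, rfl⟩⟩)),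
      fun w hw => i1.trans_le (not_lt.1 fun k => hw (mem_biUnion a2 k)),
      ((measure_mono fun w hw => ?_).trans_lt (c2 _ A a1)).trans hn⟩
    exact ⟨mem_biUnion a2 hw.1, not_not.1 hw.2⟩
  · obtain ⟨b, i3, i4⟩ := exists_rat_btwn i2
    refine ⟨_, (isOpen_lt (h3 y) continuous_const).mem_nhds i1, fun ε h => ?_⟩
    obtain ⟨n, hn⟩ := ENNReal.exists_inv_nat_lt h.ne'
    obtain ⟨A, a1, a2⟩ := c3 (⟨(a, b), Rat.cast_lt.1 i3⟩, n) (mem_univ y)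
    refine ⟨_, z.compl_mem (self_subset_generateSetAlgebra (mem_iUnion.2 ⟨_, .inl ⟨A, a1, rfl⟩⟩)),
      fun w hw => (not_lt.1 fun k => hw (mem_biUnion a2 k)).trans_lt i4,
      ((measure_mono fun w hw => ?_).trans_lt (c2 _ A a1)).trans hn⟩
    exact ⟨not_not.1 hw.2, mem_biUnion a2 hw.1⟩

theorem fin [T2Space Ω] (h1 : IsInducing e) (h2 : ∀ w, B1 (e w)) : ∃ A : ℕ → Set (Set Ω),
    (∀ i, (A i).Finite ∧ (A i).PairwiseDisjoint id ∧ ∀ s ∈ A i, IsCompact s) ∧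
    ∀ U : Set (Set Ω), (∀ u ∈ U, IsOpen u) → ⋃₀ U = univ → ∀ ε > 0,
      ∃ i, (∀ s ∈ A i, ∃ u ∈ U, s ⊆ u) ∧ μ (⋃₀ A i)ᶜ < ε := by
  obtain ⟨Z, z1, z2, z3, z4⟩ := alg (μ := μ) h1 h2
  have := z1.to_subtype
  have : ∀ j : Z × ℕ, _ := fun j => (z3 _ j.1.2).exists_isCompact_sdiff_lt (μ := μ)
    (measure_ne_top _ _) (ENNReal.inv_ne_zero.2 (ENNReal.natCast_ne_top j.2))
  choose K k1 k2 k3 using this
  obtain ⟨A, hA⟩ := (show {t | t.Finite ∧ t ⊆ range K ∧ t.PairwiseDisjoint id}.Countable from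
    (countable_ofPred_finite_subset (countable_range K)).mono
    fun t ht => by exact ⟨ht.1, ht.2.1⟩).exists_eq_range ⟨∅, by simp⟩
  have q : ∀ t : Set (Set Ω), t.Finite → t ⊆ Z → ⋃₀ t ∈ Z ∧ ∀ ε > 0, ∃ t' ∈ range A,
      (∀ s ∈ t', ∃ u ∈ t, s ⊆ u) ∧ μ (⋃₀ t \ ⋃₀ t') < ε := fun t ht => by
    rw [← hA]
    induction t, ht using Set.Finite.induction_on with
    | empty => exact fun _ => ⟨by simpa using z2.empty_mem, fun ε h => ⟨∅, by simp, by simp,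
        by simpa using h⟩⟩
    | @insert s t _ _ ih =>
      intro k
      obtain ⟨i1, i2⟩ := ih ((subset_insert _ _).trans k)
      have s1 := k (mem_insert _ _)
      rw [sUnion_insert]
      refine ⟨z2.union_mem s1 i1, fun ε h => ?_⟩
      obtain ⟨t', ⟨t1, t2, t3⟩, t4, t5⟩ := i2 _ (ENNReal.half_pos h.ne')
      obtain ⟨n, hn⟩ := ENNReal.exists_inv_nat_lt (ENNReal.half_pos h.ne').ne'
      let j : Z × ℕ := (⟨_, z2.sdiff_mem s1 i1⟩, n)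
      refine ⟨insert (K j) t', ⟨t1.insert _, insert_subset ⟨j, rfl⟩ t2, t3.insert fun u hu _ =>
        disjoint_left.2 fun w w1 w2 => ?_⟩, ?_, lt_of_le_of_lt ?_
          ((ENNReal.add_lt_add ((k3 j).trans hn) t5).trans_eq (ENNReal.add_halves _))⟩
      · obtain ⟨v, v1, v2⟩ := t4 u hu
        exact (k1 j w1).2 ⟨v, v1, v2 w2⟩
      · rintro u (rfl | hu)
        · exact ⟨s, mem_insert _ _, (k1 j).trans sdiff_subset⟩
        · obtain ⟨v, v1, v2⟩ := t4 u hu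
          exact ⟨v, mem_insert_of_mem _ v1, v2⟩
      · refine (measure_mono fun w hw => ?_).trans (measure_union_le _ _)
        rw [sUnion_insert] at hw
        by_cases w1 : w ∈ ⋃₀ t
        exacts [.inr ⟨w1, fun k => hw.2 (.inr k)⟩,
          .inl ⟨⟨hw.1.resolve_right w1, w1⟩, fun k => hw.2 (.inl k)⟩]
  refine ⟨A, fun i => ?_, fun U u1 u2 ε h => ?_⟩
  · obtain ⟨t1, t2, t3⟩ : A i ∈ {t : Set (Set Ω) | t.Finite ∧ t ⊆ range K ∧ t.PairwiseDisjoint id} :=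
      hA ▸ mem_range_self i
    exact ⟨t1, t3, fun s hs => have ⟨j, hj⟩ := t2 hs; hj ▸ k2 j⟩
  obtain ⟨t, t1, t2, t3, t4⟩ := isCompact_univ.induction_on (p := fun S => ∀ ε > 0,
    ∃ t : Set (Set Ω), t.Finite ∧ t ⊆ Z ∧ (∀ s ∈ t, ∃ u ∈ U, s ⊆ u) ∧ μ (S \ ⋃₀ t) < ε)
    (fun ε h => ⟨∅, finite_empty, empty_subset _, by simp, by simpa using h⟩)
    (fun S T k p ε h => have ⟨t, t1, t2, t3, t4⟩ := p ε h
      ⟨t, t1, t2, t3, (measure_mono (sdiff_subset_sdiff_left k)).trans_lt t4⟩)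
    (fun S T p p' ε h => by
      obtain ⟨t, t1, t2, t3, t4⟩ := p _ (ENNReal.half_pos h.ne')
      obtain ⟨s, s1, s2, s3, s4⟩ := p' _ (ENNReal.half_pos h.ne')
      refine ⟨t ∪ s, t1.union s1, union_subset t2 s2, fun u hu => hu.elim (t3 u) (s3 u),
        lt_of_le_of_lt ((measure_mono fun w hw => ?_).trans (measure_union_le _ _))
          ((ENNReal.add_lt_add t4 s4).trans_eq (ENNReal.add_halves _))⟩
      rw [sUnion_union] at hw
      exact hw.1.imp (fun k => ⟨k, fun k => hw.2 (.inl k)⟩) fun k => ⟨k, fun k => hw.2 (.inr k)⟩)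
    (fun x _ => by
      obtain ⟨u, v1, v2⟩ : x ∈ ⋃₀ U := u2 ▸ mem_univ x
      obtain ⟨V, v3, v4⟩ := z4 x u ((u1 u v1).mem_nhds v2)
      refine ⟨V, nhdsWithin_le_nhds v3, fun ε h => ?_⟩
      obtain ⟨s, s1, s2, s3⟩ := v4 ε h
      exact ⟨{s}, finite_singleton _, singleton_subset_iff.2 s1, fun _ k => ⟨u, v1, k ▸ s2⟩,
        by rwa [sUnion_singleton]⟩) _ (ENNReal.half_pos h.ne')
  obtain ⟨_, ⟨i, rfl⟩, s1, s2⟩ := (q t t1 t2).2 _ (ENNReal.half_pos h.ne')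
  refine ⟨i, fun s hs => ?_, lt_of_le_of_lt ((measure_mono fun w hw => ?_).trans
    (measure_union_le _ _)) ((ENNReal.add_lt_add t4 s2).trans_eq (ENNReal.add_halves _))⟩
  · obtain ⟨v, v1, v2⟩ := s1 s hs
    obtain ⟨u, v3, v4⟩ := t3 v v1
    exact ⟨u, v3, v2.trans v4⟩
  · by_cases w1 : w ∈ ⋃₀ t
    exacts [.inr ⟨w1, hw⟩, .inl ⟨trivial, w1⟩]

end Pool.Agent.H.MP_b8145f
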